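import Pool.Agent.H5.IAP

set_option autoImplicit false

namespace Pool.Agent.Results.MP_557f7f_co.Inertial

open Pool.Agent.H5.SAPDefs

theorem result : ∃ (n : ℕ) (A A' : Matrix (Fin n) (Fin n) SignType),
    InertiallyArbitrary A ∧ IsSuperpattern A' A ∧ ¬ InertiallyArbitrary A' :=
  ⟨4 + 2, _, _, H5.IAP.iap, H5.SAP.super_dsum _ H5.IAP.A4_super, H5.IAP.not_iap⟩

end Pool.Agent.Results.MP_557f7f_co.Inertial
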